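import Mathlib

/-! The continuous principal series of SL_n(Q_p): definitions used in the statements. -/

set_option autoImplicit false

noncomputable section

open Matrix Topology

namespace Pool.Agent.Helper911PS

/-- The group `SL_n(Q_p)`, with its usual topology (subspace of the matrices). -/
abbrev SL (p : ℕ) [Fact p.Prime] (n : ℕ) := Matrix.SpecialLinearGroup (Fin n) ℚ_[p]

theorem prodOne_mul {p : ℕ} [Fact p.Prime] {n : ℕ} {a b : Fin n → ℚ_[p]ˣ} (ha : ∏ i, a i = 1)
    (hb : ∏ i, b i = 1) : ∏ i, (a * b) i = 1 := by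
  simp only [Pi.mul_apply, Finset.prod_mul_distrib]
  rw [ha, hb, one_mul]

theorem prodOne_one {p : ℕ} [Fact p.Prime] {n : ℕ} : ∏ i, (1 : Fin n → ℚ_[p]ˣ) i = 1 := by simp

theorem prodOne_inv {p : ℕ} [Fact p.Prime] {n : ℕ} {a : Fin n → ℚ_[p]ˣ} (ha : ∏ i, a i = 1) :
    ∏ i, (a⁻¹) i = 1 := by
  simp only [Pi.inv_apply, Finset.prod_inv_distrib]
  rw [ha, inv_one]

/-- The diagonal torus `Z` of `SL_n(Q_p)`: vectors of `n` units of `Q_p` with product one. -/
def Torus (p : ℕ) [Fact p.Prime] (n : ℕ) : Subgroup (Fin n → ℚ_[p]ˣ) where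
  carrier := {t | ∏ i, t i = 1}
  mul_mem' := prodOne_mul
  one_mem' := prodOne_one
  inv_mem' := prodOne_inv

variable {p : ℕ} [Fact p.Prime] {n : ℕ}

/-- `b` lies in the Borel subgroup `B` of upper triangular matrices. -/
def IsUpper (b : SL p n) : Prop := ∀ i j : Fin n, j < i → b i j = 0

theorem IsUpper.prod_diag {b : SL p n} (hb : IsUpper b) : ∏ i, b i i = 1 := by
  have h1 := b.2
  rw [Matrix.det_of_isUpperTriangular] at h1
  · exact h1
  · intro i j hij
    exact hb i j hij

theorem IsUpper.diag_ne {b : SL p n} (hb : IsUpper b) (i : Fin n) : b i i ≠ 0 := by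
  intro h
  have h1 := hb.prod_diag
  have h2 : ∏ i, b i i = 0 := Finset.prod_eq_zero (Finset.mem_univ i) h
  rw [h2] at h1
  exact zero_ne_one h1

theorem IsUpper.prod_units {b : SL p n} (hb : IsUpper b) :
    ∏ i, Units.mk0 (b i i) (hb.diag_ne i) = 1 := by
  ext
  rw [Units.coe_prod]
  simpa using hb.prod_diag

/-- The diagonal part of an element of `B`, an element of the torus. -/
def diagOf (b : SL p n) (hb : IsUpper b) : Torus p n :=
  ⟨fun i => Units.mk0 (b i i) (hb.diag_ne i), hb.prod_units⟩

theorem coroot_prod (i j : Fin n) (h : i ≠ j) (x : ℚ_[p]ˣ) :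
    ∏ k, (if k = i then x else if k = j then x⁻¹ else 1) = 1 := by
  have h1 : ∀ k, (if k = i then x else if k = j then x⁻¹ else 1)
      = (if k = i then x else 1) * (if k = j then x⁻¹ else 1) := by
    intro k
    by_cases hi : k = i
    · simp [hi, h]
    · simp [hi]
  simp only [h1, Finset.prod_mul_distrib, Finset.prod_ite_eq', Finset.mem_univ, if_true,
    mul_inv_cancel]

/-- The coroot `x ↦ diag(1, .., x, .., x⁻¹, .., 1)` (`x` at place `i`, `x⁻¹` at place `j`). -/
def coroot (i j : Fin n) (h : i ≠ j) (x : ℚ_[p]ˣ) : Torus p n :=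
  ⟨fun k => if k = i then x else if k = j then x⁻¹ else 1, coroot_prod i j h x⟩

variable {C : Type*} [NormedField C]

/-- `f` is a continuous function `G → C` with `f (b g) = χ(b) f(g)`, the character `χ` of the torus
being extended to `B` through the diagonal. -/
def IsSection (χ : Torus p n →* Cˣ) (f : SL p n → C) : Prop :=
  Continuous f ∧ ∀ (b : SL p n) (hb : IsUpper b) (g : SL p n),
    f (b * g) = ((χ (diagOf b hb) : Cˣ) : C) * f g

theorem IsSection.add {χ : Torus p n →* Cˣ} {f g : SL p n → C} (hf : IsSection χ f)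
    (hg : IsSection χ g) : IsSection χ (f + g) :=
  ⟨hf.1.add hg.1, fun b hb x => by simp [hf.2 b hb x, hg.2 b hb x, mul_add]⟩

theorem IsSection.zero {χ : Torus p n →* Cˣ} : IsSection χ (0 : SL p n → C) :=
  ⟨continuous_const, fun b hb x => by simp⟩

theorem IsSection.smul {χ : Torus p n →* Cˣ} (a : C) {f : SL p n → C} (hf : IsSection χ f) :
    IsSection χ (a • f) :=
  ⟨hf.1.const_smul a, fun b hb x => by simp [hf.2 b hb x]; ring⟩

/-- The continuous principal series `(Ind_B^G χ)^cts`: the continuous functions `f : G → C` with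
`f (b g) = χ(b) f(g)`. -/
def PS (χ : Torus p n →* Cˣ) : Submodule C (SL p n → C) where
  carrier := {f | IsSection χ f}
  add_mem' := IsSection.add
  zero_mem' := IsSection.zero
  smul_mem' a _ h := IsSection.smul a h

/-- `k` lies in the maximal compact subgroup `SL_n(Z_p)`. -/
def IsInt (k : SL p n) : Prop := ∀ i j : Fin n, ‖k i j‖ ≤ 1

/-- `V` is a closed `G`-stable subspace of the principal series: it is stable under right
translations, and closed for the sup norm over `SL_n(Z_p)` (the Banach space norm; recall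
`G = B SL_n(Z_p)`). -/
structure IsSubrep (χ : Torus p n →* Cˣ) (V : Submodule C (SL p n → C)) : Prop where
  le : V ≤ PS χ
  stable : ∀ f ∈ V, ∀ g : SL p n, (fun x => f (x * g)) ∈ V
  closed : ∀ f ∈ PS χ, (∀ ε : ℝ, 0 < ε → ∃ g ∈ V, ∀ k : SL p n, IsInt k → ‖f k - g k‖ ≤ ε) →
    f ∈ V

/-- The principal series is reducible: it has a closed `G`-stable subspace other than `0` and
itself. -/
def Reducible (χ : Torus p n →* Cˣ) : Prop :=
  ∃ V : Submodule C (SL p n → C), IsSubrep χ V ∧ V ≠ ⊥ ∧ V ≠ PS χ

/-- Extension of scalars of a character along `C → C'`. -/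
def baseChange (C' : Type*) [NormedField C'] [NormedAlgebra C C'] (χ : Torus p n →* Cˣ) :
    Torus p n →* C'ˣ :=
  (Units.map (algebraMap C C' : C →* C')).comp χ

/-- The principal series is absolutely reducible: it becomes reducible after extending scalars to
some finite extension of `C`. -/
def AbsReducible {C : Type} [NormedField C] (χ : Torus p n →* Cˣ) : Prop :=
  ∃ (C' : Type) (_ : NormedField C') (_ : NormedAlgebra C C'), FiniteDimensional C C' ∧
    Reducible (baseChange C' χ)

end Pool.Agent.Helper911PS
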