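import Mathlib
import Pool.Agent.Helper911_PS.Defs
import Pool.Agent.Helper911_SL.Smooth

/-! From closed invariant subspaces of the principal series of SL_n(Q_p) to the abstract setting. -/

set_option autoImplicit false
set_option linter.unusedSectionVars false

noncomputable section

open Matrix Topology Filter

namespace Pool.Agent.Helper911

variable {p : ℕ} [Fact p.Prime] {n : ℕ}

/-- The two copies of the torus. -/
def toT (p : ℕ) [Fact p.Prime] (n : ℕ) : TorU p n →* Helper911PS.Torus p n :=
  Subgroup.inclusion (fun _ h => h)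

theorem toT_continuous : Continuous (toT p n) :=
  continuous_induced_rng.2 continuous_subtype_val

theorem toT_coroot (i j : Fin n) (h : i ≠ j) (x : ℚ_[p]ˣ) :
    toT p n (corootU p i j h x) = Helper911PS.coroot i j h x := rfl

theorem up_isUpper {b : SLn p n} (hb : b ∈ Up p (1 : Equiv.Perm (Fin n))) :
    Helper911PS.IsUpper b := fun i j hij => hb i j hij

theorem isUpper_up {b : SLn p n} (hb : Helper911PS.IsUpper b) :
    b ∈ Up p (1 : Equiv.Perm (Fin n)) := fun i j hij => hb i j hij

theorem toT_diag (b : SLn p n) (hb : b ∈ Up p (1 : Equiv.Perm (Fin n))) :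
    toT p n (diagU p b hb) = Helper911PS.diagOf b (up_isUpper hb) := rfl

theorem cong_isInt (k : SLn p n) : k ∈ Cong p n 0 ↔ Helper911PS.IsInt k := by
  have key : ∀ i j : Fin n, ‖(1 : Matrix (Fin n) (Fin n) ℚ_[p]) i j‖ ≤ 1 := by
    intro i j
    rw [Matrix.one_apply]; split_ifs <;> simp
  constructor
  · intro hk i j
    have h1 := hk i j
    have h2 : k i j = (k i j - (1 : Matrix (Fin n) (Fin n) ℚ_[p]) i j)
        + (1 : Matrix (Fin n) (Fin n) ℚ_[p]) i j := by ring
    rw [h2]
    exact (IsUltrametricDist.norm_add_le_max _ _).trans (max_le (h1.trans (by simp)) (key i j))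
  · intro hk i j
    have h1 : ‖k i j - (1 : Matrix (Fin n) (Fin n) ℚ_[p]) i j‖ ≤ 1 := by
      rw [sub_eq_add_neg]
      refine (IsUltrametricDist.norm_add_le_max _ _).trans (max_le (hk i j) ?_)
      rw [norm_neg]; exact key i j
    simpa using h1

variable [NeZero n] {C : Type*} [NormedField C]

/-- The character on the other copy of the torus. -/
def pull (χ : Helper911PS.Torus p n →* Cˣ) : TorU p n →* Cˣ := χ.comp (toT p n)

theorem pull_continuous {χ : Helper911PS.Torus p n →* Cˣ} (hχ : Continuous χ) :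
    Continuous (pull χ) := hχ.comp toT_continuous

theorem mem_PS_iff {χ : Helper911PS.Torus p n →* Cˣ} (hχ : Continuous χ) (f : SLn p n → C) :
    f ∈ Helper911PS.PS χ ↔ IsSec (slChar p (pull χ) (pull_continuous hχ)) f := by
  constructor
  · rintro ⟨h1, h2⟩
    refine ⟨h1, fun b hb g => ?_⟩
    rw [h2 b (up_isUpper hb) g]
    show _ = chiB p (pull χ) b * f g
    rw [chiB_eq p _ b hb]
    rfl
  · rintro ⟨h1, h2⟩
    refine ⟨h1, fun b hb g => ?_⟩
    rw [h2 b (isUpper_up hb) g]
    show chiB p (pull χ) b * f g = _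
    rw [chiB_eq p _ b (isUpper_up hb)]
    rfl

/-- The closed invariant subspace as a `SubRep`. -/
def subRep {χ : Helper911PS.Torus p n →* Cˣ} (hχ : Continuous χ)
    {V : Submodule C (SLn p n → C)} (hV : Helper911PS.IsSubrep χ V) :
    SubRep (slChar p (pull χ) (pull_continuous hχ)) where
  V := V
  sec f hf := (mem_PS_iff hχ f).1 (hV.le hf)
  stab f hf g := hV.stable f hf g
  closed := by
    intro f hf hlim
    refine hV.closed f ((mem_PS_iff hχ f).2 hf) fun ε hε => ?_
    obtain ⟨g, hg, hb⟩ := hlim ε hε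
    exact ⟨g, hg, fun k hk => hb.K k ((cong_isInt k).2 hk)⟩

end Pool.Agent.Helper911
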