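import Mathlib
import Pool.Agent.Helper911_PS.Defs
import Pool.Agent.Helper911_SL.JA
import Pool.Agent.Helper911_SL.JB

/-! A smooth character trivial on a simple coroot gives a reducible principal series. -/

set_option autoImplicit false
set_option linter.unusedSectionVars false
set_option maxHeartbeats 1000000

noncomputable section

open Matrix Topology Filter

namespace Pool.Agent.Helper911



section rs
variable {p : ℕ} [Fact p.Prime] {n : ℕ}

/-- Block triangular matrices of `SL_n(Q_p)` for the blocks given by the fibres of `β`. -/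
def rsPar (p : ℕ) [Fact p.Prime] {n : ℕ} (β : Fin n → Fin n) : Subgroup (SLn p n) where
  carrier := {g | ∀ i j, β j < β i → g i j = 0}
  mul_mem' := by
    intro a b ha hb i j hij
    simp only [Matrix.SpecialLinearGroup.coe_mul, Matrix.mul_apply]
    refine Finset.sum_eq_zero fun k _ => ?_
    rcases lt_or_ge (β k) (β i) with h | h
    · rw [ha i k h, zero_mul]
    · rw [hb k j (lt_of_lt_of_le hij h), mul_zero]
  one_mem' := by
    intro i j hij
    have : i ≠ j := by rintro rfl; exact lt_irrefl _ hij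
    simp [Matrix.one_apply_ne this]
  inv_mem' := by
    intro a ha i j hij
    have hdet : IsUnit (a : Matrix (Fin n) (Fin n) ℚ_[p]).det := by simp
    haveI : Invertible (a : Matrix (Fin n) (Fin n) ℚ_[p]) :=
      Matrix.invertibleOfIsUnitDet _ hdet
    have h1 : Matrix.BlockTriangular (a : Matrix (Fin n) (Fin n) ℚ_[p]) β := fun i j h => ha i j h
    have h2 := Matrix.blockTriangular_inv_of_blockTriangular h1
    have h3 : ((a⁻¹ : SLn p n) : Matrix (Fin n) (Fin n) ℚ_[p])
        = (a : Matrix (Fin n) (Fin n) ℚ_[p])⁻¹ := by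
      rw [Matrix.SpecialLinearGroup.coe_inv, Matrix.inv_def]; simp
    show ((a⁻¹ : SLn p n) : Matrix (Fin n) (Fin n) ℚ_[p]) i j = 0
    rw [h3]; exact h2 hij

/-- The determinant of the `k`-th diagonal block. -/
def rsE (β : Fin n → Fin n) (g : SLn p n) (k : Fin n) : ℚ_[p] :=
  ((g : Matrix (Fin n) (Fin n) ℚ_[p]).toSquareBlock β k).det

theorem rsE_cont (β : Fin n → Fin n) : Continuous (fun g : SLn p n => rsE β g) := by
  refine continuous_pi fun k => ?_
  refine Continuous.matrix_det ?_
  refine continuous_matrix fun a d => ?_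
  exact continuous_subtype_val.matrix_elem a.1 d.1

theorem rsE_one (β : Fin n → Fin n) (k : Fin n) : rsE β (1 : SLn p n) k = 1 := by
  unfold rsE
  have : ((1 : SLn p n) : Matrix (Fin n) (Fin n) ℚ_[p]).toSquareBlock β k = 1 := by
    ext a d
    show (1 : Matrix (Fin n) (Fin n) ℚ_[p]) a.1 d.1 = _
    simp only [Matrix.one_apply, Subtype.ext_iff]
  rw [this, Matrix.det_one]

theorem rsE_mul (β : Fin n → Fin n) {g g' : SLn p n} (hg : g ∈ rsPar p β) (hg' : g' ∈ rsPar p β)
    (k : Fin n) : rsE β (g * g') k = rsE β g k * rsE β g' k := by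
  unfold rsE
  rw [← Matrix.det_mul]
  congr 1
  ext a d
  show ((g * g' : SLn p n) : Matrix (Fin n) (Fin n) ℚ_[p]) a.1 d.1 =
    ∑ c : {c // β c = k}, g a.1 c.1 * g' c.1 d.1
  rw [Matrix.SpecialLinearGroup.coe_mul, Matrix.mul_apply,
    ← Finset.sum_subtype (Finset.univ.filter (fun c => β c = k)) (by simp)
      (fun c => g a.1 c * g' c d.1)]
  symm
  refine Finset.sum_subset (Finset.filter_subset _ _) ?_
  intro c _ hc
  have hc' : β c ≠ k := by simpa using hc
  rcases lt_or_gt_of_ne hc' with h | h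
  · rw [hg a.1 c (by rw [a.2]; exact h), zero_mul]
  · rw [hg' c d.1 (by rw [d.2]; exact h), mul_zero]

theorem rsE_prod (β : Fin n → Fin n) {g : SLn p n} (hg : g ∈ rsPar p β) :
    ∏ k, rsE β g k = 1 := by
  have h1 : Matrix.BlockTriangular (g : Matrix (Fin n) (Fin n) ℚ_[p]) β := fun i j h => hg i j h
  have h2 := h1.det_fintype
  rw [g.2] at h2
  exact h2.symm

theorem rsE_ne (β : Fin n → Fin n) {g : SLn p n} (hg : g ∈ rsPar p β) (k : Fin n) :
    rsE β g k ≠ 0 := by
  intro h
  have h1 := rsE_prod β hg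
  rw [Finset.prod_eq_zero (Finset.mem_univ k) h] at h1
  exact zero_ne_one h1

/-- The diagonal block determinants as an element of the torus. -/
def rsD (β : Fin n → Fin n) : rsPar p β →* Helper911PS.Torus p n where
  toFun g := ⟨fun k => Units.mk0 (rsE β g.1 k) (rsE_ne β g.2 k), by
    show ∏ k, Units.mk0 (rsE β g.1 k) (rsE_ne β g.2 k) = 1
    ext
    rw [Units.coe_prod]
    simpa using rsE_prod β g.2⟩
  map_one' := by
    apply Subtype.ext
    funext k
    ext
    exact rsE_one β k
  map_mul' g g' := by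
    apply Subtype.ext
    funext k
    ext
    exact rsE_mul β g.2 g'.2 k

theorem rsD_val (β : Fin n → Fin n) (g : rsPar p β) (k : Fin n) :
    (((rsD β g).1 k : ℚ_[p]ˣ) : ℚ_[p]) = rsE β g.1 k := rfl

theorem rs_smooth {C : Type*} [NormedField C] (χ : Helper911PS.Torus p n →* Cˣ)
    (hsm : ∃ U ∈ 𝓝 (1 : Helper911PS.Torus p n), ∀ t ∈ U, χ t = 1) (β : Fin n → Fin n) :
    ∃ m : ℕ, 1 ≤ m ∧ ∀ g : rsPar p β, (g : SLn p n) ∈ Cong p n m → χ (rsD β g) = 1 := by
  obtain ⟨U, hU, hχ⟩ := hsm
  let ι : Helper911PS.Torus p n → (Fin n → ℚ_[p]) := fun t k => ((t.1 k : ℚ_[p]ˣ) : ℚ_[p])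
  have hι : Topology.IsInducing ι := by
    have h1 : Topology.IsInducing (Pi.map (fun _ : Fin n => (Units.val : ℚ_[p]ˣ → ℚ_[p]))) :=
      Topology.IsInducing.piMap fun _ => Units.isEmbedding_val₀.isInducing
    exact h1.comp Topology.IsInducing.subtypeVal
  rw [hι.nhds_eq_comap, Filter.mem_comap] at hU
  obtain ⟨W, hW, hWU⟩ := hU
  have h2 : (fun g : SLn p n => rsE β g) ⁻¹' W ∈ 𝓝 (1 : SLn p n) := by
    apply (rsE_cont β).continuousAt.preimage_mem_nhds
    convert hW using 2
    funext k
    exact rsE_one β k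
  obtain ⟨m, hm, hmW⟩ := cong_small p n _ h2
  refine ⟨m, hm, fun g hg => hχ _ (hWU ?_)⟩
  exact hmW hg

theorem rs_fun {C : Type*} [NormedField C] (χ : Helper911PS.Torus p n →* Cˣ) (β : Fin n → Fin n)
    (m : ℕ) (hm : ∀ g : rsPar p β, (g : SLn p n) ∈ Cong p n m → χ (rsD β g) = 1) :
    ∃ f : SLn p n → C, Continuous f ∧ f 1 = 1 ∧
      (∀ (g : rsPar p β) (x : SLn p n), f (g.1 * x) = ((χ (rsD β g) : Cˣ) : C) * f x) ∧
      ∀ x, (¬ ∃ g : rsPar p β, (g.1)⁻¹ * x ∈ Cong p n m) → f x = 0 := by
  classical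
  let f : SLn p n → C := fun x =>
    if hx : ∃ g : rsPar p β, (g.1)⁻¹ * x ∈ Cong p n m then ((χ (rsD β hx.choose) : Cˣ) : C) else 0
  have key : ∀ (x : SLn p n) (g : rsPar p β), (g.1)⁻¹ * x ∈ Cong p n m →
      f x = ((χ (rsD β g) : Cˣ) : C) := by
    intro x g hg
    have hx : ∃ g : rsPar p β, (g.1)⁻¹ * x ∈ Cong p n m := ⟨g, hg⟩
    simp only [f, dif_pos hx]
    have h1 := hx.choose_spec
    set g' := hx.choose
    have h2 : ((g'⁻¹ * g : rsPar p β) : SLn p n) ∈ Cong p n m := by
      have h3 : ((g'⁻¹ * g : rsPar p β) : SLn p n) = ((g'.1)⁻¹ * x) * ((g.1)⁻¹ * x)⁻¹ := by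
        show (g'.1)⁻¹ * g.1 = _
        group
      rw [h3]
      exact mul_mem h1 (inv_mem hg)
    have h4 := hm _ h2
    rw [map_mul, map_inv, map_mul, map_inv, inv_mul_eq_one] at h4
    rw [h4]
  have hnone : ∀ x, (¬ ∃ g : rsPar p β, (g.1)⁻¹ * x ∈ Cong p n m) → f x = 0 := by
    intro x hx
    simp only [f, dif_neg hx]
  refine ⟨f, ?_, ?_, ?_, hnone⟩
  · apply IsLocallyConstant.continuous
    rw [IsLocallyConstant.iff_exists_open]
    intro x
    refine ⟨{y | x⁻¹ * y ∈ Cong p n m}, ?_, ?_, ?_⟩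
    · exact (cong_open p n m).preimage (continuous_const_mul x⁻¹)
    · show x⁻¹ * x ∈ Cong p n m
      rw [inv_mul_cancel]; exact one_mem _
    · intro y hy
      have hy' : x⁻¹ * y ∈ Cong p n m := hy
      by_cases hx : ∃ g : rsPar p β, (g.1)⁻¹ * x ∈ Cong p n m
      · obtain ⟨g, hg⟩ := hx
        rw [key x g hg]
        apply key y g
        have : (g.1)⁻¹ * y = ((g.1)⁻¹ * x) * (x⁻¹ * y) := by group
        rw [this]
        exact mul_mem hg hy'
      · rw [hnone x hx]
        apply hnone y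
        rintro ⟨g, hg⟩
        apply hx
        refine ⟨g, ?_⟩
        have : (g.1)⁻¹ * x = ((g.1)⁻¹ * y) * (x⁻¹ * y)⁻¹ := by group
        rw [this]
        exact mul_mem hg (inv_mem hy')
  · rw [key 1 1 (by simpa using one_mem _), map_one, map_one, Units.val_one]
  · intro g x
    by_cases hx : ∃ g : rsPar p β, (g.1)⁻¹ * x ∈ Cong p n m
    · obtain ⟨g0, hg0⟩ := hx
      rw [key x g0 hg0, key (g.1 * x) (g * g0) (by
        have : ((g * g0 : rsPar p β) : SLn p n)⁻¹ * (g.1 * x) = (g0.1)⁻¹ * x := by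
          show (g.1 * g0.1)⁻¹ * (g.1 * x) = _
          group
        rw [this]; exact hg0), map_mul, map_mul, Units.val_mul]
    · rw [hnone x hx, mul_zero]
      apply hnone
      rintro ⟨g0, hg0⟩
      apply hx
      refine ⟨g⁻¹ * g0, ?_⟩
      have : ((g⁻¹ * g0 : rsPar p β) : SLn p n)⁻¹ * x = (g0.1)⁻¹ * (g.1 * x) := by
        show ((g.1)⁻¹ * g0.1)⁻¹ * x = _
        group
      rw [this]; exact hg0

/-- upper triangular matrices are the case `β = id` -/
theorem rs_upper_mem (b : SLn p n) (hb : Helper911PS.IsUpper b) : b ∈ rsPar p (id : Fin n → Fin n) :=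
  fun i j hij => hb i j hij

theorem rs_diagOf (b : SLn p n) (hb : Helper911PS.IsUpper b) :
    rsD id ⟨b, rs_upper_mem b hb⟩ = Helper911PS.diagOf b hb := by
  apply Subtype.ext
  funext k
  ext
  show rsE id b k = b k k
  exact Matrix.det_toSquareBlock_id _ k

theorem rsE_upper (β : Fin n → Fin n) (b : SLn p n) (hb : Helper911PS.IsUpper b) (k : Fin n) :
    rsE β b k = ∏ a ∈ Finset.univ.filter (fun a => β a = k), b a a := by
  unfold rsE
  rw [Matrix.det_of_isUpperTriangular]
  · rw [Finset.prod_subtype (Finset.univ.filter (fun a => β a = k)) (p := fun a => β a = k)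
      (by simp) (fun a => b a a)]
    rfl
  · intro a d had
    exact hb a.1 d.1 had

end rs



open Pool.Agent.Helper911PS in
/-- TARGET. If a smooth character is trivial on a simple coroot then the principal series is reducible.

Proof. Let `x v = el j i v` (`j = i + 1`, a lower elementary matrix) and `P` the group of matrices `g` in `SL_n(Q_p)` with `g a b = 0` for `b < a`, `(a, b) ≠ (j, i)`.
`V = {f ∈ PS χ | ∀ v g, f (x v * g) = f g}`; it is a subspace, stable under right translations, and closed: if `f ∈ PS χ` is a limit of elements of `V` for the sup norm over `K` then `f (x v * g) = f g`: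
write `x v * g = b k`, `g = b' k'` (`iwasawa`); for `h ∈ V` with `‖f - h‖ ≤ ε` on `K`, `‖f (x v g) - h (x v g)‖ ≤ ‖χ b‖ ε`, `‖f g - h g‖ ≤ ‖χ b'‖ ε`.
`V ≠ PS χ`: choose `m ≥ 1` such that `χ (diagOf b) = 1` for `b ∈ B ∩ Cong p n m` (smoothness, `diagOf` is continuous on `B`). The function `f0` with `f0 (b γ) = χ b` for `b ∈ B`, `γ ∈ Cong p n m`, `0` elsewhere, is well
defined, locally constant (right `Cong m`-invariant), in `PS χ`; `f0 1 = 1`, and `x 1 ∉ B Cong m` (if `x 1 = b γ` then `γ j i = (b⁻¹) j j * 1` and `γ j j = (b⁻¹) j j` have the same norm, but `‖γ j j‖ = 1`, `‖γ j i‖ < 1`), so `f0 (x 1) = 0` and `f0 ∉ V`.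
`V ≠ ⊥`: for `g ∈ P` let `d g` be the torus element with entries `g k k` for `k ≠ i, j`, `g i i * g j j - g i j * g j i` at place `i` and `1` at place `j`, and `χP g = χ (d g)`. `d` is multiplicative on `P` and
continuous, and for `b ∈ B` `χP b = χ (diagOf b)` because `diagOf b = d b * coroot i j (b j j)⁻¹`. Choose `m` with `χP = 1` on `P ∩ Cong m`. The function `f1 (g γ) = χP g` for `g ∈ P`, `γ ∈ Cong m`, `0` elsewhere is in `V`
and `f1 1 = 1`. -/
theorem reducible_of_simple {p : ℕ} [Fact p.Prime] {n : ℕ} [NeZero n] {C : Type*} [NormedField C]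
    (χ : Torus p n →* Cˣ) (hsm : ∃ U ∈ 𝓝 (1 : Torus p n), ∀ t ∈ U, χ t = 1) (i j : Fin n)
    (h : i ≠ j) (hij : (i : ℕ) + 1 = (j : ℕ))
    (hx : ∀ x : ℚ_[p]ˣ, χ (Helper911PS.coroot i j h x) = 1) : Reducible χ := by
  classical
  have hlt : i < j := by
    rw [Fin.lt_def]; omega
  let β : Fin n → Fin n := fun k => if k = j then i else k
  have hβj : β j = i := if_pos rfl
  have hβ : ∀ k, k ≠ j → β k = k := fun k hk => if_neg hk
  -- monotonicity
  have hβm : ∀ a c, β c < β a → c < a := by
    intro a c hac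
    by_cases ha : a = j
    · by_cases hc : c = j
      · rw [ha, hc] at hac; exact absurd hac (lt_irrefl _)
      · rw [ha, hβj, hβ c hc] at hac
        rw [ha]; exact hac.trans hlt
    · by_cases hc : c = j
      · rw [hc, hβj, hβ a ha] at hac
        rw [hc]
        rw [Fin.lt_def] at hac ⊢
        have : (a : ℕ) ≠ (j : ℕ) := fun h' => ha (Fin.ext h')
        omega
      · rwa [hβ a ha, hβ c hc] at hac
  have hupβ : ∀ b : SLn p n, IsUpper b → b ∈ rsPar p β := fun b hb a c hac => hb a c (hβm a c hac)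
  let xv : ℚ_[p] → SLn p n := fun v => el p j i h.symm v
  have hxvβ : ∀ v, xv v ∈ rsPar p β := by
    intro v a c hac
    show el p j i h.symm v a c = 0
    rw [el_apply]
    have h1 : c < a := hβm a c hac
    rw [if_neg (ne_of_gt h1), if_neg, add_zero]
    rintro ⟨rfl, rfl⟩
    rw [hβj, hβ _ h] at hac
    exact lt_irrefl _ hac
  have hDx : ∀ v, rsD β ⟨xv v, hxvβ v⟩ = 1 := by
    intro v
    apply Subtype.ext
    funext k
    ext
    show rsE β (xv v) k = 1
    unfold rsE
    rw [Matrix.det_of_isLowerTriangular]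
    · apply Finset.prod_eq_one
      intro a _
      show el p j i h.symm v a.1 a.1 = 1
      rw [el_apply, if_pos rfl, if_neg, add_zero]
      rintro ⟨h1, h2⟩
      exact h (h2.symm.trans h1)
    · intro a d had
      show el p j i h.symm v a.1 d.1 = 0
      have had' : a.1 < d.1 := had
      rw [el_apply, if_neg (ne_of_lt had'), if_neg, zero_add]
      rintro ⟨h1, h2⟩
      rw [h1, h2] at had'
      exact absurd had' (not_lt_of_gt hlt)
  have hDb : ∀ (b : SLn p n) (hb : IsUpper b), χ (rsD β ⟨b, hupβ b hb⟩) = χ (diagOf b hb) := by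
    intro b hb
    have h1 : diagOf b hb = rsD β ⟨b, hupβ b hb⟩ *
        Helper911PS.coroot i j h (Units.mk0 (b j j) (hb.diag_ne j))⁻¹ := by
      apply Subtype.ext
      funext k
      ext
      show b k k = rsE β b k * _
      rw [rsE_upper β b hb k]
      show b k k = (∏ a ∈ Finset.univ.filter (fun a => β a = k), b a a) *
        ((if k = i then (Units.mk0 (b j j) (hb.diag_ne j))⁻¹ else if k = j then
          ((Units.mk0 (b j j) (hb.diag_ne j))⁻¹)⁻¹ else 1 : ℚ_[p]ˣ) : ℚ_[p])
      by_cases hki : k = i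
      · subst hki
        have h2 : Finset.univ.filter (fun a => β a = k) = {k, j} := by
          ext a
          simp only [Finset.mem_filter, Finset.mem_univ, true_and, Finset.mem_insert,
            Finset.mem_singleton]
          by_cases haj : a = j
          · simp [haj, hβj]
          · simp [haj, hβ a haj]
        rw [h2, Finset.prod_pair h, if_pos rfl, Units.val_inv_eq_inv_val, Units.val_mk0,
          mul_assoc, mul_inv_cancel₀ (hb.diag_ne j), mul_one]
      · by_cases hkj : k = j
        · subst hkj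
          have h2 : Finset.univ.filter (fun a => β a = k) = ∅ := by
            ext a
            simp only [Finset.mem_filter, Finset.mem_univ, true_and, Finset.notMem_empty, iff_false]
            intro ha
            by_cases haj : a = k
            · rw [haj, hβj] at ha; exact h ha
            · rw [hβ a haj] at ha; exact haj ha
          rw [h2, Finset.prod_empty, if_neg hki, if_pos rfl, inv_inv, Units.val_mk0, one_mul]
        · have h2 : Finset.univ.filter (fun a => β a = k) = {k} := by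
            ext a
            simp only [Finset.mem_filter, Finset.mem_univ, true_and, Finset.mem_singleton]
            by_cases haj : a = j
            · rw [haj, hβj]
              constructor
              · intro h3; exact absurd h3.symm hki
              · intro h3; exact absurd h3.symm hkj
            · rw [hβ a haj]
          rw [h2, Finset.prod_singleton, if_neg hki, if_neg hkj, Units.val_one, mul_one]
    rw [h1, map_mul, hx, mul_one]
  -- the subspace
  let V : Submodule C (SLn p n → C) :=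
    { carrier := {f | f ∈ PS χ ∧ ∀ v g, f (xv v * g) = f g}
      add_mem' := by
        rintro f g ⟨hf, hf'⟩ ⟨hg, hg'⟩
        exact ⟨(PS χ).add_mem hf hg, fun v x => by
          show f (xv v * x) + g (xv v * x) = f x + g x
          rw [hf', hg']⟩
      zero_mem' := ⟨(PS χ).zero_mem, fun v x => rfl⟩
      smul_mem' := by
        rintro a f ⟨hf, hf'⟩
        exact ⟨(PS χ).smul_mem a hf, fun v x => by
          show a • f (xv v * x) = a • f x
          rw [hf']⟩ }
  have hint : ∀ k : SLn p n, k ∈ Cong p n 0 → IsInt k := by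
    intro k hk a c
    have h1 := hk a c
    have h2 : k a c = (k a c - (1 : Matrix (Fin n) (Fin n) ℚ_[p]) a c)
        + (1 : Matrix (Fin n) (Fin n) ℚ_[p]) a c := by ring
    rw [h2]
    refine (IsUltrametricDist.norm_add_le_max _ _).trans (max_le (h1.trans (by simp)) ?_)
    rw [Matrix.one_apply]; split_ifs <;> simp
  have hup1 : ∀ b : SLn p n, b ∈ Up p (1 : Equiv.Perm (Fin n)) → IsUpper b :=
    fun b hb a c hac => hb a c hac
  refine ⟨V, ⟨fun f hf => hf.1, ?_, ?_⟩, ?_, ?_⟩
  · rintro f ⟨⟨hfc, hfB⟩, hfx⟩ g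
    refine ⟨⟨hfc.comp (continuous_mul_const g), fun b hb x => ?_⟩, fun v x => ?_⟩
    · show f (b * x * g) = _ * f (x * g)
      rw [mul_assoc, hfB b hb]
    · show f (xv v * x * g) = f (x * g)
      rw [mul_assoc, hfx]
  · intro f hf hlim
    refine ⟨hf, fun v g => ?_⟩
    obtain ⟨b, hb, k, hk, hbk⟩ := iwasawa p (xv v * g)
    obtain ⟨b', hb', k', hk', hbk'⟩ := iwasawa p g
    have hb1 := hup1 b hb
    have hb1' := hup1 b' hb'
    set c1 : C := ((χ (diagOf b hb1) : Cˣ) : C)
    set c2 : C := ((χ (diagOf b' hb1') : Cˣ) : C)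
    have hle : ∀ ε : ℝ, 0 < ε → ‖f (xv v * g) - f g‖ ≤ (‖c1‖ + ‖c2‖) * ε := by
      intro ε hε
      obtain ⟨q, hq, hqε⟩ := hlim ε hε
      have e1 : f (xv v * g) - q (xv v * g) = c1 * (f k - q k) := by
        rw [hbk, hf.2 b hb1, hq.1.2 b hb1]; ring
      have e2 : f g - q g = c2 * (f k' - q k') := by
        rw [hbk', hf.2 b' hb1', hq.1.2 b' hb1']; ring
      have e3 : f (xv v * g) - f g = c1 * (f k - q k) - c2 * (f k' - q k') := by
        rw [← e1, ← e2, hq.2 v g]; ring
      rw [e3]
      calc ‖c1 * (f k - q k) - c2 * (f k' - q k')‖ ≤ ‖c1 * (f k - q k)‖ + ‖c2 * (f k' - q k')‖ :=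
            norm_sub_le _ _
        _ ≤ ‖c1‖ * ε + ‖c2‖ * ε := by
            rw [norm_mul, norm_mul]
            exact add_le_add (mul_le_mul_of_nonneg_left (hqε k (hint k hk)) (norm_nonneg _))
              (mul_le_mul_of_nonneg_left (hqε k' (hint k' hk')) (norm_nonneg _))
        _ = (‖c1‖ + ‖c2‖) * ε := by ring
    have hzero : ‖f (xv v * g) - f g‖ ≤ 0 := by
      by_contra hcon
      push Not at hcon
      set δ := ‖f (xv v * g) - f g‖
      have hK : 0 ≤ ‖c1‖ + ‖c2‖ := add_nonneg (norm_nonneg _) (norm_nonneg _)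
      have h1 := hle (δ / (2 * (‖c1‖ + ‖c2‖ + 1))) (by positivity)
      have h2 : (‖c1‖ + ‖c2‖) * (δ / (2 * (‖c1‖ + ‖c2‖ + 1))) < δ := by
        rw [mul_div_assoc', div_lt_iff₀ (by positivity)]
        nlinarith
      linarith
    exact sub_eq_zero.mp (norm_le_zero_iff.mp hzero)
  · -- `V ≠ ⊥`
    obtain ⟨m, -, hm⟩ := rs_smooth χ hsm β
    obtain ⟨f, hfc, hf1, hfg, -⟩ := rs_fun χ β m hm
    intro hbot
    have hfV : f ∈ V := by
      refine ⟨⟨hfc, fun b hb g => ?_⟩, fun v g => ?_⟩
      · rw [← hDb b hb]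
        exact hfg ⟨b, hupβ b hb⟩ g
      · have := hfg ⟨xv v, hxvβ v⟩ g
        rw [hDx, map_one, Units.val_one, one_mul] at this
        exact this
    rw [hbot, Submodule.mem_bot] at hfV
    rw [hfV] at hf1
    exact zero_ne_one hf1
  · -- `V ≠ PS χ`
    obtain ⟨m, hm1, hm⟩ := rs_smooth χ hsm (id : Fin n → Fin n)
    obtain ⟨f, hfc, hf1, hfg, hf0⟩ := rs_fun χ id m hm
    intro htop
    have hfP : f ∈ PS χ := by
      refine ⟨hfc, fun b hb g => ?_⟩
      rw [← rs_diagOf b hb]
      exact hfg ⟨b, rs_upper_mem b hb⟩ g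
    rw [← htop] at hfP
    have h1 := hfP.2 1 1
    rw [mul_one, hf1, hf0 (xv 1)] at h1
    · exact zero_ne_one h1
    · rintro ⟨g, hg⟩
      have hc : ∀ a c : Fin n, c < a → (g⁻¹ : rsPar p (id : Fin n → Fin n)).1 a c = 0 :=
        fun a c hac => (g⁻¹).2 a c hac
      set c' : SLn p n := (g.1)⁻¹ with hc'
      have hcc : ∀ a c : Fin n, c < a → c' a c = 0 := hc
      have e1 : (c' * xv 1 : SLn p n) j i = c' j j := by
        rw [Matrix.SpecialLinearGroup.coe_mul, Matrix.mul_apply, Finset.sum_eq_single j]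
        · show c' j j * el p j i h.symm 1 j i = c' j j
          rw [el_apply, if_neg h.symm, if_pos ⟨rfl, rfl⟩, zero_add, mul_one]
        · intro a _ haj
          show c' j a * el p j i h.symm 1 a i = 0
          rw [el_apply]
          by_cases hai : a = i
          · rw [hai, hcc j i hlt, zero_mul]
          · rw [if_neg hai, if_neg (fun h' => haj h'.1), add_zero, mul_zero]
        · intro h'; exact absurd (Finset.mem_univ _) h'
      have e2 : (c' * xv 1 : SLn p n) j j = c' j j := by
        rw [Matrix.SpecialLinearGroup.coe_mul, Matrix.mul_apply, Finset.sum_eq_single j]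
        · show c' j j * el p j i h.symm 1 j j = c' j j
          rw [el_apply, if_pos rfl, if_neg (fun h' => h h'.2.symm), add_zero, mul_one]
        · intro a _ haj
          show c' j a * el p j i h.symm 1 a j = 0
          rw [el_apply, if_neg haj, if_neg (fun h' => haj h'.1), add_zero, mul_zero]
        · intro h'; exact absurd (Finset.mem_univ _) h'
      have h3 := hg j i
      have h4 := hg j j
      rw [e1, Matrix.one_apply_ne h.symm, sub_zero] at h3
      rw [e2, Matrix.one_apply_eq] at h4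
      have hp1 : (p : ℝ) ^ (-(m : ℤ)) < 1 := by
        have h5 : (1 : ℝ) < p := by exact_mod_cast (Fact.out : p.Prime).one_lt
        rw [_root_.zpow_neg, _root_.zpow_natCast]
        exact inv_lt_one_of_one_lt₀ (one_lt_pow₀ h5 (by omega))
      have h6 : (1 : ℝ) ≤ max ‖c' j j‖ ‖c' j j - 1‖ := by
        have h7 : (1 : ℚ_[p]) = c' j j + -(c' j j - 1) := by ring
        calc (1 : ℝ) = ‖(1 : ℚ_[p])‖ := by simp
          _ = ‖c' j j + -(c' j j - 1)‖ := by rw [← h7]
          _ ≤ max ‖c' j j‖ ‖-(c' j j - 1)‖ := IsUltrametricDist.norm_add_le_max _ _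
          _ = _ := by rw [norm_neg]
      have h8 : max ‖c' j j‖ ‖c' j j - 1‖ ≤ (p : ℝ) ^ (-(m : ℤ)) := max_le h3 h4
      linarith



end Pool.Agent.Helper911
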