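import Mathlib

/-! The continuous principal series of SL_n(Q_p): definitions used in the statements. -/

set_option autoImplicit false

noncomputable section

open Matrix Topology

namespace Pool.Agent.PSeries

/-- The group `SL_n(Q_p)`, with its usual topology (subspace of the matrices). -/
abbrev SL (p : ℕ) [Fact p.Prime] (n : ℕ) := Matrix.SpecialLinearGroup (Fin n) ℚ_[p]

/-- The subgroup of the vectors of `n` units of `Q_p` with product one. -/
def torusSubgroup (p : ℕ) [Fact p.Prime] (n : ℕ) : Subgroup (Fin n → ℚ_[p]ˣ) :=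
  MonoidHom.ker (∏ i, Pi.evalMonoidHom (fun _ : Fin n => ℚ_[p]ˣ) i)

theorem mem_torusSubgroup {p : ℕ} [Fact p.Prime] {n : ℕ} (t : Fin n → ℚ_[p]ˣ) :
    t ∈ torusSubgroup p n ↔ ∏ i, t i = 1 := by
  unfold torusSubgroup
  rw [MonoidHom.mem_ker, MonoidHom.finsetProd_apply]
  rfl

/-- The diagonal torus `Z` of `SL_n(Q_p)`: vectors of `n` units of `Q_p` with product one. -/
def Torus (p : ℕ) [Fact p.Prime] (n : ℕ) : Type := torusSubgroup p n

/-- The group structure of the torus. -/
instance torusGroup (p : ℕ) [Fact p.Prime] (n : ℕ) : Group (Torus p n) :=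
  Subgroup.toGroup (torusSubgroup p n)

/-- The topology of the torus (subspace topology). -/
instance torusTopology (p : ℕ) [Fact p.Prime] (n : ℕ) : TopologicalSpace (Torus p n) :=
  instTopologicalSpaceSubtype (p := fun t => t ∈ torusSubgroup p n)

variable {p : ℕ} [Fact p.Prime] {n : ℕ}

/-- `b` lies in the Borel subgroup `B` of upper triangular matrices. -/
def IsUpper (b : SL p n) : Prop := ∀ i j : Fin n, j < i → b i j = 0

theorem IsUpper.prod_diag {b : SL p n} (hb : IsUpper b) : ∏ i, b i i = 1 := by
  have h1 := b.2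
  rw [Matrix.det_of_isUpperTriangular] at h1
  · exact h1
  · intro i j hij
    exact hb i j hij

theorem IsUpper.diag_ne {b : SL p n} (hb : IsUpper b) (i : Fin n) : b i i ≠ 0 := by
  intro h
  have h1 := hb.prod_diag
  have h2 : ∏ i, b i i = 0 := Finset.prod_eq_zero (Finset.mem_univ i) h
  rw [h2] at h1
  exact zero_ne_one h1

theorem IsUpper.prod_units {b : SL p n} (hb : IsUpper b) :
    (fun i => Units.mk0 (b i i) (hb.diag_ne i)) ∈ torusSubgroup p n := by
  rw [mem_torusSubgroup]
  ext
  rw [Units.coe_prod]
  simpa using hb.prod_diag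

/-- The diagonal part of an element of `B`, an element of the torus. -/
def diagOf (b : SL p n) (hb : IsUpper b) : Torus p n :=
  ⟨fun i => Units.mk0 (b i i) (hb.diag_ne i), hb.prod_units⟩

theorem coroot_prod (i j : Fin n) (h : i ≠ j) (x : ℚ_[p]ˣ) :
    (fun k => if k = i then x else if k = j then x⁻¹ else 1) ∈ torusSubgroup p n := by
  rw [mem_torusSubgroup]
  have h1 : ∀ k, (if k = i then x else if k = j then x⁻¹ else 1)
      = (if k = i then x else 1) * (if k = j then x⁻¹ else 1) := by
    intro k
    by_cases hi : k = i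
    · simp [hi, h]
    · simp [hi]
  simp only [h1, Finset.prod_mul_distrib, Finset.prod_ite_eq', Finset.mem_univ, if_true,
    mul_inv_cancel]

/-- The coroot `x ↦ diag(1, .., x, .., x⁻¹, .., 1)` (`x` at place `i`, `x⁻¹` at place `j`). -/
def coroot (i j : Fin n) (h : i ≠ j) (x : ℚ_[p]ˣ) : Torus p n :=
  ⟨fun k => if k = i then x else if k = j then x⁻¹ else 1, coroot_prod i j h x⟩

variable {C : Type*} [NormedField C]

/-- `f` is a continuous function `G → C` with `f (b g) = χ(b) f(g)`, the character `χ` of the torus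
being extended to `B` through the diagonal. -/
def IsSection (χ : Torus p n →* Cˣ) (f : SL p n → C) : Prop :=
  Continuous f ∧ ∀ (b : SL p n) (hb : IsUpper b) (g : SL p n),
    f (b * g) = (χ (diagOf b hb) : Cˣ) * f g

theorem IsSection.add {χ : Torus p n →* Cˣ} {f g : SL p n → C} (hf : IsSection χ f)
    (hg : IsSection χ g) : IsSection χ (f + g) :=
  ⟨hf.1.add hg.1, fun b hb x => by simp [hf.2 b hb x, hg.2 b hb x, mul_add]⟩

theorem IsSection.zero {χ : Torus p n →* Cˣ} : IsSection χ (0 : SL p n → C) :=
  ⟨continuous_const, fun b hb x => by simp⟩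

theorem IsSection.smul {χ : Torus p n →* Cˣ} (a : C) {f : SL p n → C} (hf : IsSection χ f) :
    IsSection χ (a • f) :=
  ⟨hf.1.const_smul a, fun b hb x => by simp [hf.2 b hb x]; ring⟩

/-- The continuous principal series `(Ind_B^G χ)^cts`: the continuous functions `f : G → C` with
`f (b g) = χ(b) f(g)`. -/
def PS (χ : Torus p n →* Cˣ) : Submodule C (SL p n → C) where
  carrier := {f | IsSection χ f}
  add_mem' := IsSection.add
  zero_mem' := IsSection.zero
  smul_mem' a _ h := IsSection.smul a h

/-- `k` lies in the maximal compact subgroup `SL_n(Z_p)`. -/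
def IsInt (k : SL p n) : Prop := ∀ i j : Fin n, ‖k i j‖ ≤ 1

/-- `V` is stable under right translations by `G`. -/
def IsStable (V : Submodule C (SL p n → C)) : Prop :=
  ∀ f ∈ V, ∀ g : SL p n, (fun x => f (x * g)) ∈ V

/-- `f` is a limit of elements of `V` for the sup norm over `SL_n(Z_p)`, which is the Banach space
norm of the principal series (recall `G = B SL_n(Z_p)`). -/
def IsLimit (V : Submodule C (SL p n → C)) (f : SL p n → C) : Prop :=
  ∀ ε : ℝ, 0 < ε → ∃ g ∈ V, ∀ k : SL p n, IsInt k → ‖f k - g k‖ ≤ ε

/-- `V` is a closed `G`-stable subspace of the principal series. -/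
def IsSubrep (χ : Torus p n →* Cˣ) (V : Submodule C (SL p n → C)) : Prop :=
  V ≤ PS χ ∧ IsStable V ∧ ∀ f ∈ PS χ, IsLimit V f → f ∈ V

/-- The principal series is reducible: it has a closed `G`-stable subspace other than `0` and
itself. -/
def Reducible (χ : Torus p n →* Cˣ) : Prop :=
  ∃ V : Submodule C (SL p n → C), IsSubrep χ V ∧ V ≠ ⊥ ∧ V ≠ PS χ

/-- Extension of scalars of a character along `C → C'`. -/
def baseChange (C' : Type*) [NormedField C'] [NormedAlgebra C C'] (χ : Torus p n →* Cˣ) :
    Torus p n →* C'ˣ :=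
  (Units.map (algebraMap C C' : C →* C')).comp χ

/-- The principal series is absolutely reducible: it becomes reducible after extending scalars to
some finite extension of `C`. -/
def AbsReducible {C : Type} [NormedField C] (χ : Torus p n →* Cˣ) : Prop :=
  ∃ (C' : Type) (_ : NormedField C') (_ : NormedAlgebra C C'), FiniteDimensional C C' ∧
    Reducible (baseChange C' χ)

/-- The character `χ` is smooth: it is trivial on a neighbourhood of `1`. -/
def IsSmooth (χ : Torus p n →* Cˣ) : Prop := ∃ U ∈ 𝓝 (1 : Torus p n), ∀ t ∈ U, χ t = 1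

end Pool.Agent.PSeries
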