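import Mathlib
import Pool.Agent.Helper911_PS.Stmt

/-! The half-sum of the positive roots of SL_n. -/

set_option autoImplicit false

noncomputable section

open Finset

namespace Pool.Agent.PSeries

variable {p : ℕ} [Fact p.Prime] {n : ℕ}

/-- The half-sum `δ^{1/2}` of the positive roots, as a character of the torus: it is the sum of the
fundamental weights, `t ↦ ∏_k (t_0 ⋯ t_k)`. -/
def halfSum (t : Torus p n) : ℚ_[p]ˣ := ∏ k : Fin n, ∏ i ∈ univ.filter (fun i => i ≤ k), t.1 i

/-- `δ^{1/2}` has the value `x^(j-i)` on the coroot `α_{ij}^∨(x)`, `i < j`. -/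
theorem halfSum_coroot (i j : Fin n) (h : i < j) (x : ℚ_[p]ˣ) :
    halfSum (coroot i j h.ne x) = x ^ ((j : ℤ) - (i : ℤ)) := by
  classical
  have h1 : ∀ k : Fin n, ∏ l ∈ univ.filter (fun l => l ≤ k), (coroot i j h.ne x).1 l
      = if i ≤ k ∧ k < j then x else 1 := by
    intro k
    have h2 : ∀ l : Fin n, (coroot i j h.ne x).1 l
        = (if l = i then x else 1) * (if l = j then x⁻¹ else 1) := by
      intro l
      show (if l = i then x else if l = j then x⁻¹ else 1) = _
      by_cases hl : l = i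
      · simp [hl, h.ne]
      · simp [hl]
    simp only [h2, prod_mul_distrib, prod_ite_eq', mem_filter, mem_univ, true_and]
    by_cases h3 : i ≤ k
    · by_cases h4 : j ≤ k
      · simp [h3, h4]
      · simp [h3, h4, not_le.1 h4]
    · have h4 : ¬ j ≤ k := fun h4 => h3 (h.le.trans h4)
      simp [h3, h4]
  unfold halfSum
  simp only [h1]
  rw [prod_ite, prod_const_one, mul_one, prod_const]
  have h5 : (univ.filter (fun k : Fin n => i ≤ k ∧ k < j)) = Ico i j := by
    ext k; simp
  rw [h5, Fin.card_Ico]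
  have h6 : (((j : ℕ) - (i : ℕ) : ℕ) : ℤ) = (j : ℤ) - (i : ℤ) := by
    have : (i : ℕ) < (j : ℕ) := h
    omega
  rw [← h6, zpow_natCast]

end Pool.Agent.PSeries
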