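import Mathlib
import Pool.Agent.Helper911_PS.Defs
import Pool.Agent.Helper911_PS.Stmt

/-! The two sets of definitions agree. -/

set_option autoImplicit false
set_option linter.unusedSectionVars false

noncomputable section

open Matrix Topology Filter

namespace Pool.Agent.PSeries

variable {p : ℕ} [Fact p.Prime] {n : ℕ}

/-- The two copies of the torus. -/
def fromT (p : ℕ) [Fact p.Prime] (n : ℕ) : Helper911PS.Torus p n →* Torus p n where
  toFun t := ⟨t.1, (mem_torusSubgroup t.1).2 t.2⟩
  map_one' := rfl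
  map_mul' _ _ := rfl

def backT (p : ℕ) [Fact p.Prime] (n : ℕ) : Torus p n →* Helper911PS.Torus p n where
  toFun t := ⟨t.1, (mem_torusSubgroup t.1).1 t.2⟩
  map_one' := rfl
  map_mul' _ _ := rfl

theorem backT_fromT (t : Helper911PS.Torus p n) : backT p n (fromT p n t) = t := rfl
theorem fromT_backT (t : Torus p n) : fromT p n (backT p n t) = t := rfl

theorem fromT_continuous : Continuous (fromT p n) :=
  continuous_induced_rng.2 continuous_subtype_val

theorem backT_continuous : Continuous (backT p n) :=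
  continuous_induced_rng.2 continuous_induced_dom

variable {C : Type*} [NormedField C]

/-- The character on the other copy of the torus. -/
def conv (χ : Torus p n →* Cˣ) : Helper911PS.Torus p n →* Cˣ := χ.comp (fromT p n)

theorem conv_continuous {χ : Torus p n →* Cˣ} (h : Continuous χ) : Continuous (conv χ) :=
  h.comp fromT_continuous

theorem ps_iff (χ : Torus p n →* Cˣ) (f : SL p n → C) :
    f ∈ PS χ ↔ f ∈ Helper911PS.PS (conv χ) := Iff.rfl

theorem ps_eq (χ : Torus p n →* Cˣ) : PS χ = Helper911PS.PS (conv χ) :=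
  Submodule.ext fun f => ps_iff χ f

theorem subrep_iff (χ : Torus p n →* Cˣ) (V : Submodule C (SL p n → C)) :
    IsSubrep χ V ↔ Helper911PS.IsSubrep (conv χ) V := by
  constructor
  · rintro ⟨h1, h2, h3⟩
    exact ⟨fun f hf => (ps_iff χ f).1 (h1 hf), h2, fun f hf hl => h3 f ((ps_iff χ f).2 hf) hl⟩
  · rintro ⟨h1, h2, h3⟩
    exact ⟨fun f hf => (ps_iff χ f).2 (h1 hf), h2, fun f hf hl => h3 f ((ps_iff χ f).1 hf) hl⟩

theorem reducible_iff (χ : Torus p n →* Cˣ) : Reducible χ ↔ Helper911PS.Reducible (conv χ) := by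
  constructor
  · rintro ⟨V, h1, h2, h3⟩
    exact ⟨V, (subrep_iff χ V).1 h1, h2, fun h => h3 (h.trans (ps_eq χ).symm)⟩
  · rintro ⟨V, h1, h2, h3⟩
    exact ⟨V, (subrep_iff χ V).2 h1, h2, fun h => h3 (h.trans (ps_eq χ))⟩

theorem conv_coroot (χ : Torus p n →* Cˣ) (i j : Fin n) (h : i ≠ j) (x : ℚ_[p]ˣ) :
    conv χ (Helper911PS.coroot i j h x) = χ (coroot i j h x) := rfl

end Pool.Agent.PSeries
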